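import Pool.Agent.Lib.MP_8f6629_co.AL4

open Pool.Agent.Lib.MP_8f6629_co

namespace Pool.Agent.Results.MP_8f6629_co.AllLengths

theorem result (k n : ℕ) (hk : 3 ≤ k) (hn : 4 * k ^ 2 + 5 ≤ n + 2 * k) :
    ∃ σ : Equiv.Perm (Fin n), Bicrucial k σ :=
  AL.all_lengths hk hn

end Pool.Agent.Results.MP_8f6629_co.AllLengths
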