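import Pool.Agent.Lib.MP_8f6629_co.C3b

open Pool.Agent.Lib.MP_8f6629_co

namespace Pool.Agent.Results.MP_8f6629_co.Cubes

theorem result (n : ℕ) : (∃ σ : Equiv.Perm (Fin n), Bicrucial 3 σ) ↔
    n = 16 ∨ n = 19 ∨ n = 20 ∨ n = 21 ∨ 23 ≤ n :=
  ML.cubes n

end Pool.Agent.Results.MP_8f6629_co.Cubes
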