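import Pool.Agent.Lib.MP_8f6629_co.ML3

open Pool.Agent.Lib.MP_8f6629_co

namespace Pool.Agent.Results.MP_8f6629_co.MinLength

theorem result (k : ℕ) (hk : 3 ≤ k) :
    IsLeast {n : ℕ | ∃ σ : Equiv.Perm (Fin n), Bicrucial k σ} (k * (2 * k - 1) + 1) :=
  ML.least hk

end Pool.Agent.Results.MP_8f6629_co.MinLength
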